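import Mathlib
import Pool.Agent.Helper617.RM.RadoMain
import Pool.Agent.Helper617.RM.Sanity

/-!
The rainbow Ramsey property of the Rado graph: `RRP_k` and `RRP_{k+1}` are equivalent over
`RCA₀`, for every `k ≥ 2`.

Idea. Given a `(k+1)`-bounded colouring `c`, split each colour class with exactly `k + 1`
members into its `k` members with the least codes and its last member. This is a `k`-bounded
colouring `c'`. Let `R'` be a Rado subgraph on which `c'` is injective; on `R'` the colouring
`c` is `2`-bounded. Embed the whole Rado graph into `R'`, by an increasing function, and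
transfer `c`: apply `RRP_k` again.
-/

namespace Pool.Agent.Results.MP_bcc052_lc.RainbowEquiv

open Pool.Agent.Helper617.RM

universe u

/-- For every model `N` of `RCA₀` (standard or not, with any family of sets): `N` contains a Rado
graph whose vertices are all the numbers; and for every such graph `E` and every `k ≥ 2`, the
statements `RRP_k` and `RRP_{k+1}` for `E` are equivalent in `N`, also for each fixed finite
graph `H` separately. -/
theorem result (N : L2Structure.{u}) (hN : IsModelRCA0 N) :
    (∃ E : N.M → N.M → Prop,
      RelIn N E ∧ IsGraphOn N Set.univ E ∧ IsRadoOn N Set.univ E) ∧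
    ∀ E : N.M → N.M → Prop,
      RelIn N E → IsGraphOn N Set.univ E → IsRadoOn N Set.univ E →
      ∀ k : ℕ, 2 ≤ k →
        (RRP N E k ↔ RRP N E (k + 1)) ∧
        ∀ (g : N.M) (H : N.M → N.M → Prop), RelIn N H → IsGraphOn N {i | N.lt i g} H →
          (RRPFor N E g H k ↔ RRPFor N E g H (k + 1)) :=
  ⟨exists_rado N, fun _ hE hG _ _ hk =>
    ⟨⟨fun h g H hH hHG => RRPFor_succ hE hG hk (h g H hH hHG),
      fun h g H hH hHG => RRPFor_mono (h g H hH hHG)⟩,
      fun _ _ _ _ => ⟨RRPFor_succ hE hG hk, RRPFor_mono⟩⟩⟩

end Pool.Agent.Results.MP_bcc052_lc.RainbowEquiv
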